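import Mathlib
import Pool.Agent.H212R4.IndCol

/-! Auxiliary lemmas on relative freeness. -/

set_option autoImplicit false

open Cardinal Order Set

universe u

namespace Pool.Agent.N311.Ind

open Pool.Agent.Results.MP_279ba3_co.ColoringNumberStep

variable {V : Type u} {H : SimpleGraph V} {A A' C C' : Set V} {t : ℕ}

theorem weaken (h : Free H A C t) (hC : C' ⊆ C) (hA : ∀ v ∈ C', ∀ w ∈ A', H.Adj v w → w ∈ A) :
    Free H A' C' t := by
  obtain ⟨ρ, hρ, h⟩ := h
  refine ⟨ρ, hρ, fun v hv => (Set.encard_le_encard ?_).trans (h v (hC hv))⟩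
  rintro w ⟨h1, h2⟩
  refine ⟨h1, ?_⟩
  rcases h2 with h2 | ⟨h2, h3⟩
  · exact Or.inl (hA v hv w h2 h1)
  · exact Or.inr ⟨hC h2, h3⟩

theorem lin {Λ : Type*} [LinearOrder Λ] (e : Λ → Ordinal.{u}) (he : StrictMono e) (β : V → Λ)
    (h : ∀ i, Free H (A ∪ {w | w ∈ C ∧ β w < i}) {w | w ∈ C ∧ β w = i} t) : Free H A C t := by
  apply Free.blocks (fun v => e (β v))
  intro i
  by_cases hi : ∃ j, e j = i
  · obtain ⟨j, rfl⟩ := hi
    refine weaken (h j) ?_ ?_
    · rintro w ⟨h1, h2⟩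
      exact ⟨h1, he.injective h2⟩
    · rintro v hv w hw hvw
      rcases hw with hw | ⟨h1, h2⟩
      · exact Or.inl hw
      · exact Or.inr ⟨h1, he.lt_iff_lt.1 h2⟩
  · apply free_of_isolated
    rintro v ⟨_, hv⟩
    exact absurd ⟨_, hv⟩ hi

theorem natStrict : StrictMono (fun n : ℕ => (n : Ordinal.{u})) := fun a b h => by
  show (a : Ordinal.{u}) < (b : Ordinal.{u})
  exact_mod_cast h

theorem blocksN (β : V → ℕ)
    (h : ∀ i, Free H (A ∪ {w | w ∈ C ∧ β w < i}) {w | w ∈ C ∧ β w = i} t) : Free H A C t :=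
  lin _ natStrict β h

theorem two (h : Free H A C t) (h' : Free H (A ∪ C) C' t) : Free H A (C ∪ C') t := by
  classical
  apply blocksN (fun w => if w ∈ C then 0 else 1)
  intro i
  rcases i with _ | _ | i
  · refine weaken h ?_ ?_
    · rintro w ⟨_, hw⟩
      by_contra hcon
      simp [hcon] at hw
    · rintro v hv w hw _
      rcases hw with hw | hw
      · exact hw
      · simp at hw
  · refine weaken h' ?_ ?_
    · rintro w ⟨hw, hw2⟩
      rcases hw with hw | hw
      · simp [hw] at hw2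
      · exact hw
    · rintro v hv w hw _
      rcases hw with hw | ⟨_, hw⟩
      · exact Or.inl hw
      · right
        by_contra hcon
        simp [hcon] at hw
  · apply free_of_isolated
    rintro v ⟨_, hv⟩
    exfalso
    split_ifs at hv <;> omega

theorem free_of_card (h : ∀ v ∈ C, {w | H.Adj v w ∧ (w ∈ A ∨ w ∈ C)}.encard ≤ t) :
    Free H A C t := by
  obtain ⟨ρ, hρ⟩ := exists_inj V
  refine ⟨ρ, hρ, fun v hv => (Set.encard_le_encard ?_).trans (h v hv)⟩
  rintro w ⟨h1, h2⟩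
  exact ⟨h1, h2.imp id And.left⟩

theorem free_of_rank (β : V → ℕ) (hinj : Set.InjOn β C)
    (h : ∀ v ∈ C, {w | H.Adj v w ∧ (w ∈ A ∨ (w ∈ C ∧ β w < β v))}.encard ≤ t) :
    Free H A C t := by
  apply blocksN β
  intro i
  apply free_of_card
  rintro v ⟨hv, hvi⟩
  refine (Set.encard_le_encard ?_).trans (h v hv)
  rintro w ⟨h1, h2⟩
  refine ⟨h1, ?_⟩
  rcases h2 with (h2 | ⟨h2, h3⟩) | ⟨h2, h3⟩
  · exact Or.inl h2
  · exact Or.inr ⟨h2, by rw [hvi]; exact h3⟩
  · exact absurd (hinj h2 hv (h3.trans hvi.symm)) h1.ne'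

end Pool.Agent.N311.Ind
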