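import Pool.Agent.N311.Ind.Main

/-! Removing infinitely many vertices makes the graph `(e+3)`-free. -/

set_option autoImplicit false

open Cardinal Order Set

universe u

namespace Pool.Agent.N311.Ind

open Pool.Agent.Results.MP_279ba3_co.ColoringNumberStep

variable {Ω : Type u} [LinearOrder Ω] {e : ℕ} {D : ∀ a : {a : Ω // IsLim a}, Data e a}

/-- a whole ray -/
theorem whole_ray {a : {a : Ω // IsLim a}} {k : ℕ} {A W : Set (Vtx Ω)}
    (hA1 : ∀ i r, Vtx.b a k i r ∉ A) (hA2 : ∀ w ∈ A, lev w ≤ a.1)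
    (hA3 : ∀ w ∈ A, lev w < a.1 → w ∈ W)
    (hI : ∀ N, ∃ i, N ≤ i ∧ ∀ c, (D a).T k i c ∉ W) :
    Free (Gr D) A {w | ∃ i r, w = .b a k i r} (e + 3) := by
  classical
  let I : ℕ → Prop := fun i => i ≠ 0 ∧ ∀ c, (D a).T k i c ∉ W
  let π : ℕ → ℕ := fun i => Nat.count I (i + 1)
  have hπ : Monotone π := fun i j h => Nat.count_monotone I (Nat.succ_le_succ h)
  apply blocksN (fun w => π (ii w))
  intro m
  by_cases hm : ∃ p, π p = m
  · let p := Nat.find hm
    have hp : π p = m := Nat.find_spec hm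
    have hpmin : ∀ i, π i = m → p ≤ i := fun i hi => Nat.find_min' hm hi
    have hpI : p ≠ 0 → I p := by
      intro h0
      by_contra hcon
      obtain ⟨p', hp'⟩ := Nat.exists_eq_succ_of_ne_zero h0
      have h1 : π p' = m := by
        have h2 : Nat.count I (p + 1) = Nat.count I p := by
          rw [Nat.count_succ, if_neg hcon, add_zero]
        rw [← hp]
        show Nat.count I (p' + 1) = Nat.count I (p + 1)
        rw [h2, hp']
      have h2 := hpmin _ h1
      omega
    obtain ⟨q, hq, hqI⟩ := hI (p + 1)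
    have hqI' : I q := ⟨by omega, hqI⟩
    have hπq : m < π q := by
      have h1 : Nat.count I (q + 1) = Nat.count I q + 1 := by
        rw [Nat.count_succ, if_pos hqI']
      have h2 : Nat.count I (p + 1) ≤ Nat.count I q := Nat.count_monotone I hq
      show m < Nat.count I (q + 1)
      rw [h1, ← hp]
      exact Nat.lt_succ_of_le h2
    refine weaken (ray (D := D) (a := a) (k := k) (p := p) (q := q)
      (A := A ∪ {w | w ∈ {w | ∃ i r, w = .b a k i r} ∧ π (ii w) < m}) ?_ ?_ ?_)
      ?_ (fun _ _ _ h _ => h)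
    · rintro i r (h | ⟨_, h⟩)
      · exact absurd h (hA1 i r)
      · by_contra hcon
        have h1 : π i < m := h
        have h2 := hπ (not_lt.1 hcon)
        rw [hp] at h2
        omega
    · rintro w (h | ⟨⟨i, r, rfl⟩, _⟩)
      · exact Or.inr (hA2 w h)
      · exact Or.inr le_rfl
    · intro h0 c
      rintro (h | ⟨⟨i, r, h⟩, _⟩)
      · exact (hpI h0).2 c (hA3 _ h ((D a).T_lt k p c))
      · have h1 := (D a).T_lt k p c
        rw [h] at h1
        exact lt_irrefl _ h1
    · rintro w ⟨⟨i, r, rfl⟩, h⟩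
      have h1 : π i = m := h
      refine ⟨i, r, rfl, hpmin i h1, ?_⟩
      by_contra hcon
      have h2 := hπ (not_lt.1 hcon)
      omega
  · apply free_of_isolated
    rintro v ⟨_, hv⟩
    exact absurd ⟨_, hv⟩ hm

theorem seg_bot [WellFoundedLT Ω] (b : Ω) : Free (Gr D) ∅ {w | lev w ≤ b} (e + 3) := by
  let o : Ω := (wellFounded_lt (α := Ω)).min Set.univ ⟨b, Set.mem_univ _⟩
  have ho : ∀ x, o ≤ x := fun x =>
    not_lt.1 ((wellFounded_lt (α := Ω)).not_lt_min Set.univ (Set.mem_univ x))
  have h1 := seg (D := D) b o (ho b) ∅ Set.finite_empty (by simp)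
  have h2 : Free (Gr D) ∅ {w | lev w ≤ o} (e + 3) := by
    apply free_of_isolated
    intro v hv w hadj
    refine ⟨Set.notMem_empty _, fun hw => ?_⟩
    rcases v with ⟨x, n⟩ | ⟨x, k, i, r⟩
    · have h3 := adj_y_lt hadj
      exact absurd ((h3.trans_le hw).trans_le (ho x)) (lt_irrefl _)
    · obtain ⟨c, hc⟩ := x.2.1
      exact absurd ((hc.trans_le hv).trans_le (ho c)) (lt_irrefl _)
  refine weaken (two h2 (C' := {w | lev w ≤ b ∧ o < lev w ∧ w ∉ (∅ : Set (Vtx Ω))}) ?_) ?_
    (fun _ _ _ h _ => h)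
  · refine weaken h1 subset_rfl ?_
    rintro v _ w (hw | hw) _
    · exact absurd hw (Set.notMem_empty _)
    · exact Or.inl hw
  · intro w hw
    rcases (ho (lev w)).eq_or_lt with h | h
    · exact Or.inl h.ge
    · exact Or.inr ⟨hw, h, Set.notMem_empty _⟩

theorem free_of_coinfinite [WellFoundedLT Ω]
    (hu : ∀ S : Set Ω, S.Countable → ∃ b, ∀ x ∈ S, x < b) {W : Set (Vtx Ω)} (hW : Wᶜ.Infinite) :
    Free (Gr D) ∅ W (e + 3) := by
  classical
  let f := hW.natEmbedding
  obtain ⟨x0, hx0⟩ := hu (Set.range fun n => lev (f n).1) (Set.countable_range _)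
  have hinf : {w : Vtx Ω | w ∉ W ∧ lev w < x0}.Infinite := by
    have h1 : Set.range (fun n => (f n).1) ⊆ {w : Vtx Ω | w ∉ W ∧ lev w < x0} := by
      rintro _ ⟨n, rfl⟩
      exact ⟨(f n).2, hx0 _ ⟨n, rfl⟩⟩
    refine Set.Infinite.mono h1 (Set.infinite_range_of_injective ?_)
    intro m n h
    exact f.injective (Subtype.ext h)
  apply lin _ typeinStrict (fun w => max x0 (lev w))
  intro x
  rcases lt_trichotomy x x0 with hx | rfl | hx
  · apply free_of_isolated
    rintro v ⟨_, hv⟩
    exact absurd (hv ▸ le_max_left x0 (lev v)) (not_le.2 hx)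
  · refine weaken (seg_bot (D := D) x) ?_ ?_
    · rintro w ⟨_, hw⟩
      exact hw ▸ le_max_right x (lev w)
    · rintro v _ w (hw | ⟨_, hw⟩) _
      · exact hw
      · exact absurd (le_max_left x (lev w)) (not_le.2 hw)
  · have key : Free (Gr D) {w | w ∈ W ∧ lev w < x} {w | lev w = x} (e + 3) := by
      have h1 : Free (Gr D) {w | w ∈ W ∧ lev w < x} {w | ∃ n, w = .y x n} (e + 3) := by
        apply free_of_isolated
        rintro _ ⟨n, rfl⟩ w hadj
        have h2 := adj_y_lt hadj
        refine ⟨fun h => absurd (h2.trans h.2) (lt_irrefl _), ?_⟩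
        rintro ⟨n', rfl⟩
        exact lt_irrefl _ h2
      by_cases hl : IsLim x
      · have h2 : Free (Gr D) ({w | w ∈ W ∧ lev w < x} ∪ {w | ∃ n, w = .y x n})
            {w | ∃ k i r, w = .b ⟨x, hl⟩ k i r} (e + 3) := by
          apply blocksN kk
          intro k
          refine weaken (whole_ray (D := D) (a := ⟨x, hl⟩) (k := k) (W := W)
            (A := {w | w ∈ W ∧ lev w < x} ∪ {w | ∃ n, w = .y x n} ∪
              {w | w ∈ {w | ∃ k i r, w = .b ⟨x, hl⟩ k i r} ∧ kk w < k}) ?_ ?_ ?_ ?_) ?_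
            (fun _ _ _ h _ => h)
          · rintro i r ((h | ⟨n, h⟩) | ⟨_, h⟩)
            · exact absurd h.2 (lt_irrefl _)
            · cases h
            · exact absurd h (lt_irrefl _)
          · rintro w ((h | ⟨n, rfl⟩) | ⟨⟨k', i', r', rfl⟩, _⟩)
            · exact h.2.le
            · exact le_rfl
            · exact le_rfl
          · rintro w ((h | ⟨n, rfl⟩) | ⟨⟨k', i', r', rfl⟩, _⟩) hlt
            · exact h.1
            · exact absurd hlt (lt_irrefl _)
            · exact absurd hlt (lt_irrefl _)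
          · intro N
            obtain ⟨i, hi, hi2⟩ := (D ⟨x, hl⟩).T_dense {w | w ∉ W ∧ lev w < x0} hinf
              (fun w hw => hw.2.trans hx) k N
            exact ⟨i, hi, fun c => (hi2 c).1⟩
          · rintro w ⟨⟨k', i', r', rfl⟩, h⟩
            have h' : k' = k := h
            subst h'
            exact ⟨i', r', rfl⟩
        refine weaken (two h1 h2) ?_ (fun _ _ _ h _ => h)
        rintro w hw
        rcases w with ⟨a, n⟩ | ⟨a, k, i, r⟩
        · have hw' : a = x := hw
          subst hw'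
          exact Or.inl ⟨n, rfl⟩
        · have hw' : a = ⟨x, hl⟩ := Subtype.ext hw
          subst hw'
          exact Or.inr ⟨k, i, r, rfl⟩
      · refine weaken h1 ?_ (fun _ _ _ h _ => h)
        rintro w hw
        rcases w with ⟨a, n⟩ | ⟨a, k, i, r⟩
        · have hw' : a = x := hw
          subst hw'
          exact ⟨n, rfl⟩
        · have hw' : a.1 = x := hw
          exact absurd (hw' ▸ a.2) hl
    refine weaken key ?_ ?_
    · rintro w ⟨_, hw⟩
      rw [Set.mem_ofPred_eq]
      rcases max_choice x0 (lev w) with h | h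
      · rw [h] at hw
        exact absurd hw hx.ne
      · rw [h] at hw
        exact hw
    · rintro v _ w (hw | ⟨hw1, hw2⟩) _
      · exact absurd hw (Set.notMem_empty _)
      · exact ⟨hw1, (le_max_right _ _).trans_lt hw2⟩

end Pool.Agent.N311.Ind
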