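import Pool.Agent.N311.Ind.Graph

/-! Existence of the data. -/

set_option autoImplicit false

open Cardinal Order Set

universe u

namespace Pool.Agent.N311.Ind

variable {Ω : Type u} [LinearOrder Ω]

/-- code of a vertex within its level -/
def code : Vtx Ω → ℕ ⊕ (ℕ × ℕ × Fin 12)
  | .y _ n => Sum.inl n
  | .b _ k i r => Sum.inr (k, i, r)

/-- second coordinate of vertices of type `y` -/
def num : Vtx Ω → ℕ
  | .y _ n => n
  | .b _ _ _ _ => 0

theorem lev_code_inj : Function.Injective (fun w : Vtx Ω => (lev w, code w)) := by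
  intro v w h
  simp only [Prod.mk.injEq] at h
  obtain ⟨h1, h2⟩ := h
  rcases v with ⟨a, n⟩ | ⟨a, k, i, r⟩ <;> rcases w with ⟨a', n'⟩ | ⟨a', k', i', r'⟩
  · simp only [code, Sum.inl.injEq] at h2
    simp only [lev] at h1
    rw [h1, h2]
  · simp [code] at h2
  · simp [code] at h2
  · simp only [code, Sum.inr.injEq, Prod.mk.injEq] at h2
    simp only [lev] at h1
    obtain ⟨rfl, rfl, rfl⟩ := h2
    rw [Subtype.ext h1]

theorem countable_lev {S : Set Ω} (hS : S.Countable) : {w : Vtx Ω | lev w ∈ S}.Countable := by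
  have h1 := (hS.prod (Set.countable_univ (α := ℕ ⊕ (ℕ × ℕ × Fin 12)))).preimage
    (lev_code_inj (Ω := Ω))
  refine h1.mono ?_
  intro w hw
  exact ⟨hw, Set.mem_univ _⟩

theorem exists_ladder (a : {a : Ω // IsLim a}) (hc : (Set.Iio a.1).Countable) :
    ∃ δ : ℕ → Ω, StrictMono δ ∧ (∀ s, δ s < a.1) ∧ ∀ g < a.1, ∃ s, g ≤ δ s := by
  classical
  have hne : (Set.Iio a.1).Nonempty := a.2.1
  obtain ⟨f, hf⟩ := hc.exists_eq_range hne
  have hf1 : ∀ n, f n < a.1 := fun n => by
    have : f n ∈ Set.Iio a.1 := hf ▸ ⟨n, rfl⟩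
    exact this
  have hnext : ∀ (x : {x : Ω // x < a.1}) (n : ℕ), ∃ c : {x : Ω // x < a.1}, x < c ∧ f n < c.1 := by
    intro x n
    obtain ⟨c, h1, h2⟩ := a.2.2 (max x.1 (f n)) (max_lt x.2 (hf1 n))
    exact ⟨⟨c, h2⟩, show x.1 < c from (le_max_left _ _).trans_lt h1,
      (le_max_right _ _).trans_lt h1⟩
  choose nx hnx1 hnx2 using hnext
  let d : ℕ → {x : Ω // x < a.1} := fun n => Nat.rec ⟨f 0, hf1 0⟩ (fun n x => nx x n) n
  have hd : ∀ n, d (n + 1) = nx (d n) n := fun n => rfl
  refine ⟨fun n => (d n).1, strictMono_nat_of_lt_succ fun n => ?_, fun s => (d s).2, ?_⟩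
  · rw [hd]
    exact hnx1 _ _
  · intro g hg
    have : g ∈ Set.range f := hf ▸ hg
    obtain ⟨n, rfl⟩ := this
    refine ⟨n + 1, ?_⟩
    show f n ≤ (d (n + 1)).1
    rw [hd]
    exact (hnx2 _ _).le

theorem exists_data (e : ℕ) (a : {a : Ω // IsLim a}) (hc : (Set.Iio a.1).Countable) :
    Nonempty (Data e a) := by
  classical
  obtain ⟨δ, hδ1, hδ2, hδ3⟩ := exists_ladder a hc
  have hcount : Countable {w : Vtx Ω // lev w < a.1} := (countable_lev hc).to_subtype
  have hinf : Infinite {w : Vtx Ω // lev w < a.1} :=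
    Infinite.of_injective (fun n : ℕ => (⟨.y (δ 0) n, hδ2 0⟩ : {w : Vtx Ω // lev w < a.1}))
      (fun m n h => by
        have := congrArg Subtype.val h
        injection this)
  obtain ⟨E⟩ : Nonempty (ℕ ≃ {w : Vtx Ω // lev w < a.1}) := nonempty_equiv_of_countable
  obtain ⟨σ, hσ⟩ := exists_surjective_nat (Fin 12 × Fin (e + 2) → ℕ)
  let τ : ℕ → (Fin 12 × Fin (e + 2) → ℕ) := fun s => σ (Nat.unpair s).2
  let M : ℕ → ℕ := fun k => (Finset.range k).sup (fun j => num (E j).1) + 1
  have hM : ∀ k j, j < k → ∀ b n, (E j).1 = .y b n → n < M k := by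
    intro k j hj b n h
    have h1 : num (E j).1 ≤ (Finset.range k).sup (fun j => num (E j).1) :=
      Finset.le_sup (f := fun j => num (E j).1) (Finset.mem_range.2 hj)
    rw [h] at h1
    exact Nat.lt_succ_of_le h1
  let cd : Fin 12 × Fin (e + 2) → ℕ := Encodable.encode
  have hcd : Function.Injective cd := Encodable.encode_injective
  let P : ℕ → ℕ → Prop := fun k s => Function.Injective (τ s) ∧
    ∀ c, k ≤ τ s c ∧ lev (E (τ s c)).1 ≤ δ s
  let T : ℕ → ℕ → Fin 12 × Fin (e + 2) → Vtx Ω := fun k i c =>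
    if i % 2 = 0 then .y (δ (i / 2 + 1)) (Nat.pair k (M k + cd c))
    else if P k (i / 2) then (E (τ (i / 2) c)).1 else .y (δ 0) (M k + cd c)
  have hT0 : ∀ k s c, T k (2 * s) c = .y (δ (s + 1)) (Nat.pair k (M k + cd c)) := by
    intro k s c
    have h1 : (2 * s) % 2 = 0 := by omega
    have h2 : (2 * s) / 2 = s := by omega
    simp only [T, h1, h2, if_true]
  have hT1 : ∀ k s c, P k s → T k (2 * s + 1) c = (E (τ s c)).1 := by
    intro k s c h
    have h1 : ¬ ((2 * s + 1) % 2 = 0) := by omega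
    have h2 : (2 * s + 1) / 2 = s := by omega
    simp only [T, h1, h2, if_false, if_pos h]
  have hT2 : ∀ k s c, ¬ P k s → T k (2 * s + 1) c = .y (δ 0) (M k + cd c) := by
    intro k s c h
    have h1 : ¬ ((2 * s + 1) % 2 = 0) := by omega
    have h2 : (2 * s + 1) / 2 = s := by omega
    simp only [T, h1, h2, if_false, if_neg h]
  refine ⟨⟨δ, T, hδ1, hδ2, hδ3, ?_, ?_, ?_, ?_, ?_, ?_⟩⟩
  · intro k i c c' h
    rcases Nat.even_or_odd' i with ⟨s, rfl | rfl⟩
    · rw [hT0, hT0] at h
      injection h with _ h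
      have h2 := (Nat.pair_eq_pair.1 h).2
      exact hcd (by omega)
    · by_cases hP : P k s
      · rw [hT1 k s c hP, hT1 k s c' hP] at h
        exact hP.1 (E.injective (Subtype.ext h))
      · rw [hT2 k s c hP, hT2 k s c' hP] at h
        injection h with _ h
        exact hcd (by omega)
  · intro k s c
    exact ⟨_, hT0 k s c⟩
  · intro k s c
    by_cases hP : P k s
    · rw [hT1 k s c hP]
      exact (hP.2 c).2
    · rw [hT2 k s c hP]
      exact hδ1.monotone (Nat.zero_le s)
  · intro s k k' c c' h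
    rw [hT0, hT0] at h
    injection h with _ h
    obtain ⟨h1, h2⟩ := Nat.pair_eq_pair.1 h
    subst h1
    exact ⟨rfl, hcd (by omega)⟩
  · intro F hF
    -- choose `k` above all indices of members of `F`
    have h1 : {j : ℕ | (E j).1 ∈ F}.Finite := by
      apply Set.Finite.preimage _ hF
      intro i _ j _ h
      exact E.injective (Subtype.ext h)
    obtain ⟨k, hk⟩ := h1.bddAbove
    have hk' : ∀ j, (E j).1 ∈ F → j < k + 1 := fun j hj => Nat.lt_succ_of_le (hk hj)
    have hy : ∀ b n, b < a.1 → M (k + 1) ≤ n → Vtx.y b n ∉ F := by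
      intro b n hb hn hmem
      have h2 := hk' (E.symm ⟨.y b n, hb⟩) (by simpa using hmem)
      have h3 := hM (k + 1) _ h2 b n (by simp)
      omega
    refine ⟨k + 1, fun i c => ?_⟩
    rcases Nat.even_or_odd' i with ⟨s, rfl | rfl⟩
    · rw [hT0]
      refine hy _ _ (hδ2 _) ?_
      exact (Nat.le_add_right _ _).trans (Nat.right_le_pair _ _)
    · by_cases hP : P (k + 1) s
      · rw [hT1 _ s c hP]
        intro hmem
        have h2 := hk' _ hmem
        have h3 := (hP.2 c).1
        omega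
      · rw [hT2 _ s c hP]
        exact hy _ _ (hδ2 _) (Nat.le_add_right _ _)
  · intro U hU hUa k N
    -- choose an injection into `U`
    have hinf2 : {j : ℕ | (E j).1 ∈ U}.Infinite := by
      intro hfin
      apply hU
      have h1 : U ⊆ (fun j => (E j).1) '' {j : ℕ | (E j).1 ∈ U} := by
        intro w hw
        refine ⟨E.symm ⟨w, hUa w hw⟩, ?_, by simp⟩
        simpa using hw
      exact (hfin.image _).subset h1
    have hinf3 : ({j : ℕ | (E j).1 ∈ U} \ (Set.Iio k)).Infinite :=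
      hinf2.sdiff (Set.finite_Iio k)
    let g := hinf3.natEmbedding
    let f : Fin 12 × Fin (e + 2) → ℕ := fun c => (g (cd c)).1
    have hf : Function.Injective f := by
      intro c c' h
      exact hcd (g.injective (Subtype.ext h))
    have hf1 : ∀ c, (E (f c)).1 ∈ U := fun c => (g (cd c)).2.1
    have hf2 : ∀ c, k ≤ f c := fun c => not_lt.1 (g (cd c)).2.2
    have hlev : ∀ c, ∃ s, lev (E (f c)).1 ≤ δ s := fun c => hδ3 _ (E (f c)).2
    choose sc hsc using hlev
    obtain ⟨x, hx⟩ := hσ f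
    let l := N + Finset.univ.sup sc
    have hl1 : ∀ c, sc c ≤ l := fun c =>
      (Finset.le_sup (f := sc) (Finset.mem_univ c)).trans (Nat.le_add_left _ _)
    have hl2 : l ≤ Nat.pair l x := Nat.left_le_pair _ _
    have hτ : τ (Nat.pair l x) = f := by
      simp only [τ, Nat.unpair_pair]
      exact hx
    have hP : P k (Nat.pair l x) := by
      refine ⟨by rw [hτ]; exact hf, fun c => ?_⟩
      rw [hτ]
      exact ⟨hf2 c, (hsc c).trans (hδ1.monotone ((hl1 c).trans hl2))⟩
    refine ⟨2 * Nat.pair l x + 1, by omega, fun c => ?_⟩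
    rw [hT1 _ _ _ hP, hτ]
    exact hf1 c

end Pool.Agent.N311.Ind
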