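import Pool.Agent.N311.Ind.Coinf

/-! The counterexample. -/

set_option autoImplicit false

open Cardinal Order Set

universe u

namespace Pool.Agent.N311.Ind

open Pool.Agent.Results.MP_279ba3_co.ColoringNumberStep
open Pool.Agent.H212R4.IndCol (free_induce)

/-- the index set: a well-ordered set of type `ω₁` -/
abbrev Om : Type u := (aleph 1 : Cardinal.{u}).ord.ToType

theorem om_Iio (a : Om.{u}) : (Set.Iio a).Countable := by
  rw [Cardinal.countable_iff_lt_aleph_one]
  have h := Cardinal.mk_Iio_lt a (by simp)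
  simpa using h

theorem om_bdd (S : Set Om.{u}) (hS : S.Countable) : ∃ b, ∀ x ∈ S, x < b := by
  by_contra hcon
  push Not at hcon
  have h1 : (Set.univ : Set Om.{u}) ⊆ ⋃ x ∈ S, Set.Iic x := by
    intro b _
    obtain ⟨x, hx, hbx⟩ := hcon b
    exact Set.mem_biUnion hx hbx
  have h2 : (Set.univ : Set Om.{u}).Countable := by
    refine Set.Countable.mono h1 (hS.biUnion fun x _ => ?_)
    rw [← Set.Iio_union_right]
    exact (om_Iio x).union (Set.countable_singleton x)
  rw [Cardinal.countable_iff_lt_aleph_one, Cardinal.mk_univ, Cardinal.mk_ord_toType] at h2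
  exact lt_irrefl _ h2

/-- the number of vertices -/
theorem mk_vtx : #(Vtx Om.{u}) = aleph 1 := by
  apply le_antisymm
  · have h1 := Cardinal.mk_le_of_injective (α := Vtx Om.{u})
      (f := fun w : Vtx Om.{u} => (lev w, (ULift.up.{u} (code w)))) (by
        intro v w h
        simp only [Prod.mk.injEq, ULift.up.injEq] at h
        exact lev_code_inj (by simp only [Prod.mk.injEq]; exact h))
    refine h1.trans ?_
    rw [Cardinal.mk_prod, Cardinal.lift_id, Cardinal.lift_id, Cardinal.mk_ord_toType]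
    have h2 : #(ULift.{u} (ℕ ⊕ (ℕ × ℕ × Fin 12))) ≤ aleph 1 :=
      (Cardinal.mk_le_aleph0).trans (aleph0_le_aleph 1)
    exact Cardinal.mul_le_of_le (aleph0_le_aleph 1) le_rfl h2
  · have h1 := Cardinal.mk_le_of_injective (α := Om.{u}) (f := fun a => Vtx.y a 0) (by
      intro a b h
      injection h)
    rwa [Cardinal.mk_ord_toType] at h1

/-- the data -/
noncomputable def DD (e : ℕ) (a : {a : Om.{u} // IsLim a}) : Data e a :=
  (exists_data e a (om_Iio a.1)).some

theorem not_col_le {V : Type u} {G : SimpleGraph V} {W : Set V} {k : ℕ}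
    (h : ¬ Free G ∅ W k) : ((k + 1 : ℕ) : Cardinal.{u}) < col (G.induce W) := by
  rw [← not_le, col_le_iff, free_induce]
  exact h

theorem counterexample (n : ℕ) (hn : 5 ≤ n) : ∃ (V : Type u) (G : SimpleGraph V),
    #V = aleph 1 ∧ col G = (n : Cardinal.{u}) + 1 ∧
    ∀ W : Set V, col (G.induce W) ≠ (n : Cardinal.{u}) := by
  obtain ⟨e, rfl⟩ : ∃ e, n = e + 5 := ⟨n - 5, by omega⟩
  refine ⟨Vtx Om.{u}, Gr (DD e), mk_vtx, ?_, fun W hW => ?_⟩
  · apply le_antisymm
    · have h1 := (col_le_iff (Gr (DD.{u} e)) (e + 5)).2 upper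
      simpa using h1
    · have h1 : ¬ Free (Gr (DD.{u} e)) ∅ Set.univ (e + 4) :=
        not_free_of_cofinite om_Iio om_bdd (by simp)
      rw [← col_le_iff, not_le] at h1
      rw [← Cardinal.succ_natCast]
      exact Order.succ_le_of_lt h1
  · by_cases hfin : Wᶜ.Finite
    · have h1 := not_col_le (not_free_of_cofinite (D := DD.{u} e) om_Iio om_bdd hfin)
      rw [hW] at h1
      exact lt_irrefl _ h1
    · have h1 : Free (Gr (DD.{u} e)) ∅ W (e + 3) := free_of_coinfinite om_bdd hfin
      rw [← free_induce, ← col_le_iff, hW] at h1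
      have h2 : e + 5 ≤ e + 3 + 1 := by exact_mod_cast h1
      omega

end Pool.Agent.N311.Ind
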