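import Pool.Agent.N311.Ind.Basic

/-! The graph. -/

set_option autoImplicit false

open Cardinal Order Set

universe u

namespace Pool.Agent.N311.Ind

open Pool.Agent.Results.MP_279ba3_co.ColoringNumberStep

/-- limit points of a linear order (the least element is not one) -/
def IsLim {Ω : Type u} [LinearOrder Ω] (a : Ω) : Prop :=
  (∃ b, b < a) ∧ ∀ b < a, ∃ c, b < c ∧ c < a

/-- the vertices -/
inductive Vtx (Ω : Type u) [LinearOrder Ω] : Type u
  | y (a : Ω) (n : ℕ) : Vtx Ω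
  | b (a : {a : Ω // IsLim a}) (k i : ℕ) (r : Fin 12) : Vtx Ω

variable {Ω : Type u} [LinearOrder Ω]

/-- the level of a vertex -/
def lev : Vtx Ω → Ω
  | .y a _ => a
  | .b a _ _ _ => a.1

/-- the gadget: later neighbours in the same copy -/
def fwd : Fin 12 → Finset (Fin 12) :=
  ![{3}, {3}, {4}, {4, 5, 6}, {5, 6, 7}, {7, 8, 11}, {8, 9, 10}, {9, 10, 11}, {9, 10, 11},
    {10, 11}, {11}, ∅]

/-- the gadget: neighbours in the next copy -/
def upN : Fin 12 → Finset (Fin 12) :=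
  ![∅, ∅, ∅, ∅, ∅, ∅, ∅, ∅, ∅, {2}, {0, 1}, {0, 1, 2}]

/-- the number of neighbours in the lower levels -/
def hh (e : ℕ) (r : Fin 12) : ℕ := if r.val < 3 then e + 2 else e

theorem fwd_lt : ∀ r r' : Fin 12, r' ∈ fwd r → r < r' := by decide

theorem count1 : ∀ r : Fin 12, (fwd r).card + (upN r).card +
    (Finset.univ.filter (fun r' => r ∈ upN r')).card ≤ 3 := by decide

theorem count2 (e : ℕ) (r : Fin 12) : (fwd r).card + (upN r).card + hh e r ≤ e + 3 := by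
  have h : ∀ r : Fin 12, (fwd r).card + (upN r).card + (if r.val < 3 then 2 else 0) ≤ 3 := by
    decide
  have := h r
  unfold hh
  split_ifs at this ⊢ <;> omega

theorem count3 (e : ℕ) (r : Fin 12) : (fwd r).card +
    (Finset.univ.filter (fun r' => r ∈ fwd r')).card +
    (Finset.univ.filter (fun r' => r ∈ upN r')).card + hh e r = e + 5 := by
  have h : ∀ r : Fin 12, (fwd r).card + (Finset.univ.filter (fun r' => r ∈ fwd r')).card +
    (Finset.univ.filter (fun r' => r ∈ upN r')).card + (if r.val < 3 then 2 else 0) = 5 := by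
    decide
  have := h r
  unfold hh
  split_ifs at this ⊢ <;> omega

/-- the data attached to a limit level -/
structure Data (e : ℕ) (a : {a : Ω // IsLim a}) where
  δ : ℕ → Ω
  T : ℕ → ℕ → Fin 12 × Fin (e + 2) → Vtx Ω
  δ_mono : StrictMono δ
  δ_lt : ∀ s, δ s < a.1
  δ_cof : ∀ g < a.1, ∃ s, g ≤ δ s
  T_inj : ∀ k i, Function.Injective (T k i)
  T_even : ∀ k s c, ∃ n, T k (2 * s) c = .y (δ (s + 1)) n
  T_odd : ∀ k s c, lev (T k (2 * s + 1) c) ≤ δ s
  T_disj : ∀ s k k' c c', T k (2 * s) c = T k' (2 * s) c' → k = k' ∧ c = c'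
  T_avoid : ∀ F : Set (Vtx Ω), F.Finite → ∃ k, ∀ i c, T k i c ∉ F
  T_dense : ∀ U : Set (Vtx Ω), U.Infinite → (∀ w ∈ U, lev w < a.1) →
    ∀ k N, ∃ i, N ≤ i ∧ ∀ c, T k i c ∈ U

theorem Data.T_lt {e : ℕ} {a : {a : Ω // IsLim a}} (D : Data e a) (k i : ℕ)
    (c : Fin 12 × Fin (e + 2)) : lev (D.T k i c) < a.1 := by
  rcases Nat.even_or_odd' i with ⟨s, rfl | rfl⟩
  · obtain ⟨n, hn⟩ := D.T_even k s c
    rw [hn]
    exact D.δ_lt _
  · exact (D.T_odd k s c).trans_lt (D.δ_lt _)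

variable {e : ℕ} (D : ∀ a : {a : Ω // IsLim a}, Data e a)

/-- the edges, oriented -/
def E : Vtx Ω → Vtx Ω → Prop
  | .y _ _, _ => False
  | .b a k i r, w => (∃ r' ∈ fwd r, w = .b a k i r') ∨ (∃ r' ∈ upN r, w = .b a k (i + 1) r') ∨
      (∃ j : Fin (e + 2), j.val < hh e r ∧ w = (D a).T k i (r, j))

theorem E_irrefl (x : Vtx Ω) : ¬ E D x x := by
  rcases x with ⟨a, n⟩ | ⟨a, k, i, r⟩
  · exact id
  · rintro (⟨r', hr, h⟩ | ⟨r', hr, h⟩ | ⟨j, hj, h⟩)
    · injection h with _ _ _ h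
      have := fwd_lt r r' hr
      rw [h] at this
      exact lt_irrefl _ this
    · injection h with _ _ h _
      omega
    · have h1 := (D a).T_lt k i (r, j)
      rw [← h] at h1
      exact lt_irrefl _ h1

/-- the graph -/
def Gr : SimpleGraph (Vtx Ω) where
  Adj x w := E D x w ∨ E D w x
  symm := ⟨fun _ _ h => h.symm⟩
  loopless := ⟨fun x h => E_irrefl D x (or_self_iff.1 h)⟩

variable {D}

theorem adj_b {a : {a : Ω // IsLim a}} {k i : ℕ} {r : Fin 12} {w : Vtx Ω}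
    (h : (Gr D).Adj (.b a k i r) w) :
    (∃ r' ∈ fwd r, w = .b a k i r') ∨ (∃ r' ∈ upN r, w = .b a k (i + 1) r') ∨
      (∃ j : Fin (e + 2), j.val < hh e r ∧ w = (D a).T k i (r, j)) ∨
      (∃ r', r ∈ fwd r' ∧ w = .b a k i r') ∨
      (∃ i' r', i = i' + 1 ∧ r ∈ upN r' ∧ w = .b a k i' r') ∨
      (∃ a' k' i' r' j, w = .b a' k' i' r' ∧ j.val < hh e r' ∧
        .b a k i r = (D a').T k' i' (r', j)) := by
  rcases h with (h | h | h) | h
  · exact Or.inl h
  · exact Or.inr (Or.inl h)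
  · exact Or.inr (Or.inr (Or.inl h))
  · rcases w with ⟨a', n'⟩ | ⟨a', k', i', r'⟩
    · exact absurd h id
    · rcases h with ⟨r'', hr, h⟩ | ⟨r'', hr, h⟩ | ⟨j, hj, h⟩
      · injection h with h1 h2 h3 h4
        subst h1 h2 h3 h4
        exact Or.inr (Or.inr (Or.inr (Or.inl ⟨r', hr, rfl⟩)))
      · injection h with h1 h2 h3 h4
        subst h1 h2 h4
        exact Or.inr (Or.inr (Or.inr (Or.inr (Or.inl ⟨i', r', h3, hr, rfl⟩))))
      · exact Or.inr (Or.inr (Or.inr (Or.inr (Or.inr ⟨a', k', i', r', j, rfl, hj, h⟩))))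

theorem adj_y {a : Ω} {n : ℕ} {w : Vtx Ω} (h : (Gr D).Adj (.y a n) w) :
    ∃ a' k' i' r' j, w = .b a' k' i' r' ∧ j.val < hh e r' ∧ .y a n = (D a').T k' i' (r', j) := by
  rcases h with h | h
  · exact absurd h id
  · rcases w with ⟨a', n'⟩ | ⟨a', k', i', r'⟩
    · exact absurd h id
    · rcases h with ⟨r'', hr, h⟩ | ⟨r'', hr, h⟩ | ⟨j, hj, h⟩
      · cases h
      · cases h
      · exact ⟨a', k', i', r', j, rfl, hj, h⟩

theorem adj_lt {v w : Vtx Ω} (h : (Gr D).Adj v w) (hlt : lev v < lev w) :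
    ∃ a' k' i' r' j, w = .b a' k' i' r' ∧ j.val < hh e r' ∧ v = (D a').T k' i' (r', j) := by
  rcases v with ⟨a, n⟩ | ⟨a, k, i, r⟩
  · exact adj_y h
  · rcases adj_b h with ⟨r', _, rfl⟩ | ⟨r', _, rfl⟩ | ⟨j, _, rfl⟩ | ⟨r', _, rfl⟩ |
      ⟨i', r', _, _, rfl⟩ | h
    · exact absurd hlt (lt_irrefl _)
    · exact absurd hlt (lt_irrefl _)
    · exact absurd (hlt.trans ((D a).T_lt k i _)) (lt_irrefl _)
    · exact absurd hlt (lt_irrefl _)
    · exact absurd hlt (lt_irrefl _)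
    · exact h

/-- neighbours of a vertex of type `y` are above -/
theorem adj_y_lt {a : Ω} {n : ℕ} {w : Vtx Ω} (h : (Gr D).Adj (.y a n) w) : a < lev w := by
  obtain ⟨a', k', i', r', j, rfl, _, h2⟩ := adj_y h
  have := (D a').T_lt k' i' (r', j)
  rw [← h2] at this
  exact this

theorem T_adj {a : {a : Ω // IsLim a}} {k i : ℕ} {r : Fin 12} {j : Fin (e + 2)}
    (hj : j.val < hh e r) : (Gr D).Adj (.b a k i r) ((D a).T k i (r, j)) :=
  Or.inl (Or.inr (Or.inr ⟨j, hj, rfl⟩))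

end Pool.Agent.N311.Ind
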