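import Pool.Agent.N311.Ind.Seg
import Pool.Agent.N311.Ind.DataEx

/-! The three facts on the graph. -/

set_option autoImplicit false

open Cardinal Order Set

universe u

namespace Pool.Agent.N311.Ind

open Pool.Agent.Results.MP_279ba3_co.ColoringNumberStep

variable {Ω : Type u} [LinearOrder Ω] {e : ℕ} {D : ∀ a : {a : Ω // IsLim a}, Data e a}

theorem bound4 {V : Type u} {S P1 P2 P3 P4 : Set V} {n1 n2 n3 n4 t : ℕ}
    (h : S ⊆ P1 ∪ P2 ∪ P3 ∪ P4)
    (h1 : P1.encard ≤ n1) (h2 : P2.encard ≤ n2) (h3 : P3.encard ≤ n3) (h4 : P4.encard ≤ n4)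
    (ht : n1 + n2 + n3 + n4 ≤ t) : S.encard ≤ t := by
  calc S.encard ≤ (P1 ∪ P2 ∪ P3 ∪ P4).encard := Set.encard_le_encard h
    _ ≤ (P1 ∪ P2 ∪ P3).encard + P4.encard := Set.encard_union_le _ _
    _ ≤ ((P1 ∪ P2).encard + P3.encard) + P4.encard := by gcongr; exact Set.encard_union_le _ _
    _ ≤ ((P1.encard + P2.encard) + P3.encard) + P4.encard := by
        gcongr; exact Set.encard_union_le _ _
    _ ≤ ((n1 + n2) + n3) + n4 := by gcongr
    _ ≤ t := by exact_mod_cast ht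

theorem typeinStrict [WellFoundedLT Ω] :
    StrictMono (fun x : Ω => Ordinal.typein (α := Ω) (· < ·) x) := fun _ _ h =>
  (Ordinal.typein_lt_typein (α := Ω) (· < ·)).2 h

/-- the whole graph is `(e+5)`-free -/
theorem upper [WellFoundedLT Ω] : Free (Gr D) ∅ Set.univ (e + 5) := by
  classical
  apply lin _ typeinStrict lev
  intro x
  apply blocksN ii
  intro i0
  apply free_of_card
  rintro v ⟨⟨_, hv⟩, hvi⟩
  rcases v with ⟨a, n⟩ | ⟨a, k, i, r⟩
  · have hav : a = x := hv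
    subst hav
    have : {w | (Gr D).Adj (.y a n) w ∧
        (w ∈ ∅ ∪ {w | w ∈ Set.univ ∧ lev w < a} ∪
            {w | w ∈ {w | w ∈ Set.univ ∧ lev w = a} ∧ ii w < i0} ∨
          w ∈ {w | w ∈ {w | w ∈ Set.univ ∧ lev w = a} ∧ ii w = i0})} = ∅ := by
      rw [Set.eq_empty_iff_forall_notMem]
      rintro w ⟨h1, h2⟩
      have h3 := adj_y_lt h1
      rcases h2 with ((h2 | h2) | h2) | h2
      · exact h2
      · exact absurd (h2.2.trans h3) (lt_irrefl _)
      · exact absurd (h2.1.2 ▸ h3) (lt_irrefl _)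
      · exact absurd (h2.1.2 ▸ h3) (lt_irrefl _)
    rw [this]
    simp
  · have hav : a.1 = x := hv
    have hvi' : i = i0 := hvi
    subst hav hvi'
    refine bound4 (P1 := (fun r' => Vtx.b a k i r') '' (fwd r : Set (Fin 12)))
      (P2 := (fun r' => Vtx.b a k i r') ''
          ((Finset.univ.filter (fun r' => r ∈ fwd r') : Finset (Fin 12)) : Set (Fin 12)))
      (P3 := (fun r' => Vtx.b a k (i - 1) r') ''
          ((Finset.univ.filter (fun r' => r ∈ upN r') : Finset (Fin 12)) : Set (Fin 12)))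
      (P4 := {w | ∃ j : Fin (e + 2), j.val < hh e r ∧ w = (D a).T k i (r, j)}) ?_
      (encard_image_finset _ _) (encard_image_finset _ _) (encard_image_finset _ _)
      (encard_T k i r) (count3 e r).le
    rintro w ⟨h1, h2⟩
    rcases adj_b h1 with ⟨r', hr, rfl⟩ | ⟨r', hr, rfl⟩ | ⟨j, hj, rfl⟩ | ⟨r', hr, rfl⟩ |
      ⟨i', r', hi, hr, rfl⟩ | ⟨a', k', i', r', j, rfl, hj, h⟩
    · exact Or.inl (Or.inl (Or.inl ⟨r', hr, rfl⟩))
    · exfalso
      rcases h2 with ((h2 | h2) | h2) | h2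
      · exact h2
      · exact absurd h2.2 (lt_irrefl _)
      · have h3 : i + 1 < i := h2.2
        omega
      · have h3 : i + 1 = i := h2.2
        omega
    · exact Or.inr ⟨j, hj, rfl⟩
    · exact Or.inl (Or.inl (Or.inr ⟨r', by simpa using hr, rfl⟩))
    · refine Or.inl (Or.inr ⟨r', by simpa using hr, ?_⟩)
      have : i - 1 = i' := by omega
      rw [this]
    · exfalso
      have h3 := (D a').T_lt k' i' (r', j)
      rw [← h] at h3
      rcases h2 with ((h2 | h2) | h2) | h2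
      · exact h2
      · exact absurd (h2.2.trans h3) (lt_irrefl _)
      · have h4 : a'.1 = a.1 := h2.1.2
        rw [h4] at h3
        exact lt_irrefl _ h3
      · have h4 : a'.1 = a.1 := h2.1.2
        rw [h4] at h3
        exact lt_irrefl _ h3

/-- a closure point for a function with countable values -/
theorem exists_limit_closed [WellFoundedLT Ω] (hu : ∀ S : Set Ω, S.Countable → ∃ b, ∀ x ∈ S, x < b)
    (g : Ω → Ω) (hg : ∀ x, x < g x) (x0 : Ω) :
    ∃ a : Ω, IsLim a ∧ x0 < a ∧ ∀ x < a, ∃ z, x ≤ z ∧ g z < a := by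
  let f : ℕ → Ω := fun n => g^[n] x0
  have hf : ∀ n, f (n + 1) = g (f n) := fun n => Function.iterate_succ_apply' g n x0
  obtain ⟨b, hb⟩ := hu (Set.range f) (Set.countable_range f)
  have hne : {b | ∀ n, f n < b}.Nonempty := ⟨b, fun n => hb _ ⟨n, rfl⟩⟩
  let a := (wellFounded_lt (α := Ω)).min _ hne
  have ha : ∀ n, f n < a := (wellFounded_lt (α := Ω)).min_mem _ hne
  have hmin : ∀ c < a, ∃ n, c ≤ f n := by
    intro c hc
    by_contra hcon
    push Not at hcon
    exact (wellFounded_lt (α := Ω)).not_lt_min {b | ∀ n, f n < b}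
      (show c ∈ {b | ∀ n, f n < b} from hcon) hc
  refine ⟨a, ⟨⟨x0, ha 0⟩, fun c hc => ?_⟩, ha 0, fun x hx => ?_⟩
  · obtain ⟨n, hn⟩ := hmin c hc
    refine ⟨f (n + 1), ?_, ha _⟩
    rw [hf]
    exact hn.trans_lt (hg _)
  · obtain ⟨n, hn⟩ := hmin x hx
    exact ⟨f n, hn, by rw [← hf]; exact ha _⟩

/-- removing finitely many vertices does not help -/
theorem not_free_of_cofinite [WellFoundedLT Ω] (hc : ∀ a : Ω, (Set.Iio a).Countable)
    (hu : ∀ S : Set Ω, S.Countable → ∃ b, ∀ x ∈ S, x < b) {W : Set (Vtx Ω)} (hW : Wᶜ.Finite) :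
    ¬ Free (Gr D) ∅ W (e + 4) := by
  classical
  rintro ⟨ρ, hρ, h⟩
  have hfin : ∀ v ∈ W, {w | (Gr D).Adj v w ∧ w ∈ W ∧ ρ w < ρ v}.Finite := by
    intro v hv
    apply Set.finite_of_encard_le_coe (k := e + 4)
    refine (Set.encard_le_encard ?_).trans (h v hv)
    rintro w ⟨h1, h2⟩
    exact ⟨h1, Or.inr h2⟩
  have hg : ∀ x : Ω, ∃ z, x < z ∧ ∀ v ∈ W, lev v ≤ x → ∀ w ∈ W, (Gr D).Adj v w → ρ w < ρ v →
      lev w < z := by
    intro x
    have h1 : (⋃ v ∈ {v : Vtx Ω | lev v ∈ Set.Iic x} ∩ W,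
        lev '' {w | (Gr D).Adj v w ∧ w ∈ W ∧ ρ w < ρ v}).Countable := by
      apply Set.Countable.biUnion
      · refine (countable_lev ?_).mono Set.inter_subset_left
        rw [← Set.Iio_union_right]
        exact (hc x).union (Set.countable_singleton x)
      · rintro v ⟨_, hv⟩
        exact ((hfin v hv).image _).countable
    obtain ⟨b, hb⟩ := hu _ (h1.union (Set.countable_singleton x))
    refine ⟨b, hb x (Or.inr rfl), fun v hv hvx w hw hadj hlt => ?_⟩
    apply hb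
    left
    exact Set.mem_biUnion (show v ∈ {v : Vtx Ω | lev v ∈ Set.Iic x} ∩ W from ⟨hvx, hv⟩)
      ⟨w, ⟨hadj, hw, hlt⟩, rfl⟩
  choose g hg1 hg2 using hg
  obtain ⟨x0, hx0⟩ := hu (lev '' Wᶜ) (hW.image _).countable
  obtain ⟨a, halim, hxa, ha⟩ := exists_limit_closed hu g hg1 x0
  have hcl : ∀ v ∈ W, lev v < a → ∀ w ∈ W, (Gr D).Adj v w → ρ w < ρ v → lev w < a := by
    intro v hv hva w hw hadj hlt
    obtain ⟨z, hz1, hz2⟩ := ha _ hva
    exact (hg2 z v hv hz1 w hw hadj hlt).trans hz2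
  have hWa : ∀ w, a ≤ lev w → w ∈ W := by
    intro w hw
    by_contra hcon
    have h1 := hx0 _ ⟨w, hcon, rfl⟩
    exact absurd ((h1.trans hxa).trans_le hw) (lt_irrefl _)
  let A : {a : Ω // IsLim a} := ⟨a, halim⟩
  obtain ⟨k, hk⟩ := (D A).T_avoid Wᶜ hW
  have hTW : ∀ i c, (D A).T k i c ∈ W := fun i c => not_not.1 (hk i c)
  have hbW : ∀ i r, Vtx.b A k i r ∈ W := fun i r => hWa _ le_rfl
  have hmax : ∀ i, ∃ r0, ∀ r, ρ (.b A k i r) ≤ ρ (.b A k i r0) := fun i =>
    Finite.exists_max (fun r : Fin 12 => ρ (.b A k i r))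
  choose r0 hr0 using hmax
  obtain ⟨i, hi⟩ := WellFounded.not_rel_apply_succ (r := ((· < ·) : Ordinal.{u} → Ordinal.{u} → Prop))
    (fun i => ρ (.b A k i (r0 i)))
  apply hi
  show ρ (.b A k (i + 1) (r0 (i + 1))) < ρ (.b A k i (r0 i))
  by_contra hcon
  rw [not_lt] at hcon
  set r := r0 (i + 1) with hr
  set v : Vtx Ω := .b A k (i + 1) r with hv
  have hmaxv : ∀ r', ρ (.b A k (i + 1) r') ≤ ρ v := hr0 (i + 1)
  let N1 : Finset (Vtx Ω) := (fwd r).image (fun r' => .b A k (i + 1) r')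
  let N2 : Finset (Vtx Ω) := (Finset.univ.filter (fun r' => r ∈ fwd r')).image
    (fun r' => .b A k (i + 1) r')
  let N3 : Finset (Vtx Ω) := (Finset.univ.filter (fun r' => r ∈ upN r')).image
    (fun r' => .b A k i r')
  have hle : hh e r ≤ e + 2 := by
    unfold hh
    split_ifs <;> omega
  let N4 : Finset (Vtx Ω) := (Finset.univ : Finset (Fin (hh e r))).image
    (fun j => (D A).T k (i + 1) (r, Fin.castLE hle j))
  have c1 : N1.card = (fwd r).card := by
    apply Finset.card_image_of_injective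
    intro x y hxy
    injection hxy
  have c2 : N2.card = (Finset.univ.filter (fun r' => r ∈ fwd r')).card := by
    apply Finset.card_image_of_injective
    intro x y hxy
    injection hxy
  have c3 : N3.card = (Finset.univ.filter (fun r' => r ∈ upN r')).card := by
    apply Finset.card_image_of_injective
    intro x y hxy
    injection hxy
  have c4 : N4.card = hh e r := by
    rw [Finset.card_image_of_injective, Finset.card_univ, Fintype.card_fin]
    intro x y hxy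
    have h1 := (D A).T_inj k (i + 1) hxy
    simp only [Prod.mk.injEq, true_and] at h1
    exact Fin.castLE_injective hle h1
  have d12 : Disjoint N1 N2 := by
    rw [Finset.disjoint_left]
    intro w h1 h2
    simp only [N1, N2, Finset.mem_image, Finset.mem_filter, Finset.mem_univ, true_and] at h1 h2
    obtain ⟨r1, h1, rfl⟩ := h1
    obtain ⟨r2, h2, h3⟩ := h2
    injection h3 with _ _ _ h3
    subst h3
    exact absurd ((fwd_lt _ _ h1).trans (fwd_lt _ _ h2)) (lt_irrefl _)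
  have d3 : Disjoint (N1 ∪ N2) N3 := by
    rw [Finset.disjoint_left]
    intro w h1 h2
    simp only [N1, N2, N3, Finset.mem_union, Finset.mem_image, Finset.mem_filter,
      Finset.mem_univ, true_and] at h1 h2
    obtain ⟨r2, h2, rfl⟩ := h2
    rcases h1 with ⟨r1, _, h1⟩ | ⟨r1, _, h1⟩
    · injection h1 with _ _ h1
      omega
    · injection h1 with _ _ h1
      omega
  have d4 : Disjoint (N1 ∪ N2 ∪ N3) N4 := by
    rw [Finset.disjoint_left]
    intro w h1 h2
    simp only [N1, N2, N3, N4, Finset.mem_union, Finset.mem_image, Finset.mem_filter,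
      Finset.mem_univ, true_and] at h1 h2
    obtain ⟨j, rfl⟩ := h2
    have h3 := (D A).T_lt k (i + 1) (r, Fin.castLE hle j)
    rcases h1 with (⟨r1, _, h1⟩ | ⟨r1, _, h1⟩) | ⟨r1, _, h1⟩
    · rw [← h1] at h3
      exact lt_irrefl _ h3
    · rw [← h1] at h3
      exact lt_irrefl _ h3
    · rw [← h1] at h3
      exact lt_irrefl _ h3
  have hcard : (N1 ∪ N2 ∪ N3 ∪ N4).card = e + 5 := by
    rw [Finset.card_union_of_disjoint d4, Finset.card_union_of_disjoint d3,
      Finset.card_union_of_disjoint d12, c1, c2, c3, c4]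
    exact count3 e r
  have hsub : ((N1 ∪ N2 ∪ N3 ∪ N4 : Finset (Vtx Ω)) : Set (Vtx Ω)) ⊆
      {w | (Gr D).Adj v w ∧ (w ∈ (∅ : Set (Vtx Ω)) ∨ (w ∈ W ∧ ρ w < ρ v))} := by
    have hlt : ∀ w, w ≠ v → ρ w ≤ ρ v → ρ w < ρ v := fun w h1 h2 =>
      lt_of_le_of_ne h2 fun h3 => h1 (hρ h3)
    intro w hw
    simp only [N1, N2, N3, N4, Finset.coe_union, Finset.coe_image, Set.mem_union, Set.mem_image,
      Finset.mem_coe, Finset.mem_filter, Finset.mem_univ, true_and] at hw
    rcases hw with ((⟨r1, h1, rfl⟩ | ⟨r1, h1, rfl⟩) | ⟨r1, h1, rfl⟩) | ⟨j, rfl⟩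
    · have h2 : (Gr D).Adj v (.b A k (i + 1) r1) := Or.inl (Or.inl ⟨r1, h1, rfl⟩)
      exact ⟨h2, Or.inr ⟨hbW _ _, hlt _ h2.ne' (hmaxv _)⟩⟩
    · have h2 : (Gr D).Adj v (.b A k (i + 1) r1) := Or.inr (Or.inl ⟨r, h1, rfl⟩)
      exact ⟨h2, Or.inr ⟨hbW _ _, hlt _ h2.ne' (hmaxv _)⟩⟩
    · have h2 : (Gr D).Adj v (.b A k i r1) := Or.inr (Or.inr (Or.inl ⟨r, h1, rfl⟩))
      exact ⟨h2, Or.inr ⟨hbW _ _, hlt _ h2.ne' ((hr0 i r1).trans hcon)⟩⟩
    · have h2 : (Gr D).Adj v ((D A).T k (i + 1) (r, Fin.castLE hle j)) :=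
        Or.inl (Or.inr (Or.inr ⟨Fin.castLE hle j, j.isLt, rfl⟩))
      refine ⟨h2, Or.inr ⟨hTW _ _, ?_⟩⟩
      by_contra hcon2
      have h3 : ρ v < ρ ((D A).T k (i + 1) (r, Fin.castLE hle j)) :=
        lt_of_le_of_ne (not_lt.1 hcon2) fun h4 => h2.ne (hρ h4)
      have h4 := hcl _ (hTW (i + 1) (r, Fin.castLE hle j)) ((D A).T_lt k (i + 1) _) v
        (hbW _ _) h2.symm h3
      exact lt_irrefl _ h4
  have h1 := (Set.encard_le_encard hsub).trans (h v (hbW _ _))
  rw [Set.encard_coe_eq_coe_finsetCard, hcard] at h1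
  have h2 : e + 5 ≤ e + 4 := by exact_mod_cast h1
  omega

end Pool.Agent.N311.Ind
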