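import Pool.Agent.N311.Ind.Graph

/-! The ray lemma. -/

set_option autoImplicit false

open Cardinal Order Set

universe u

namespace Pool.Agent.N311.Ind

open Pool.Agent.Results.MP_279ba3_co.ColoringNumberStep

variable {Ω : Type u} [LinearOrder Ω] {e : ℕ} {D : ∀ a : {a : Ω // IsLim a}, Data e a}

theorem bound3 {V : Type u} {S P1 P2 P3 : Set V} {n1 n2 n3 t : ℕ} (h : S ⊆ P1 ∪ P2 ∪ P3)
    (h1 : P1.encard ≤ n1) (h2 : P2.encard ≤ n2) (h3 : P3.encard ≤ n3) (ht : n1 + n2 + n3 ≤ t) :
    S.encard ≤ t := by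
  calc S.encard ≤ (P1 ∪ P2 ∪ P3).encard := Set.encard_le_encard h
    _ ≤ (P1 ∪ P2).encard + P3.encard := Set.encard_union_le _ _
    _ ≤ (P1.encard + P2.encard) + P3.encard := by gcongr; exact Set.encard_union_le _ _
    _ ≤ (n1 + n2) + n3 := by gcongr
    _ ≤ t := by exact_mod_cast ht

theorem encard_image_finset {α β : Type*} (f : α → β) (s : Finset α) :
    (f '' (s : Set α)).encard ≤ s.card :=
  (Set.encard_image_le _ _).trans (by rw [Set.encard_coe_eq_coe_finsetCard])

theorem encard_T {a : {a : Ω // IsLim a}} (k i : ℕ) (r : Fin 12) :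
    {w | ∃ j : Fin (e + 2), j.val < hh e r ∧ w = (D a).T k i (r, j)}.encard ≤ hh e r := by
  classical
  have h1 : {w | ∃ j : Fin (e + 2), j.val < hh e r ∧ w = (D a).T k i (r, j)} ⊆
      (fun j : ℕ => if h : j < e + 2 then (D a).T k i (r, ⟨j, h⟩) else (D a).T k i (r, 0)) ''
        (Finset.range (hh e r) : Set ℕ) := by
    rintro w ⟨j, hj, rfl⟩
    refine ⟨j.val, by simpa using hj, ?_⟩
    simp
  refine (Set.encard_le_encard h1).trans ((encard_image_finset _ _).trans ?_)
  rw [Finset.card_range]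

theorem ray {a : {a : Ω // IsLim a}} {k p q : ℕ} {A : Set (Vtx Ω)}
    (hA1 : ∀ i r, Vtx.b a k i r ∈ A → i < p) (hA2 : ∀ w ∈ A, (∃ x n, w = .y x n) ∨ lev w ≤ a.1)
    (hA3 : p ≠ 0 → ∀ c, (D a).T k p c ∉ A) :
    Free (Gr D) A {w | ∃ i r, w = .b a k i r ∧ p ≤ i ∧ i < q} (e + 3) := by
  classical
  let β : Vtx Ω → ℕ := fun w => match w with
    | .b _ _ i r => (q - 1 - i) * 12 + (11 - r.val)
    | .y _ _ => 0
  have hβ : ∀ i r, β (.b a k i r) = (q - 1 - i) * 12 + (11 - r.val) := fun _ _ => rfl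
  apply free_of_rank β
  · rintro _ ⟨i, r, rfl, h1, h2⟩ _ ⟨i', r', rfl, h3, h4⟩ h
    rw [hβ, hβ] at h
    have := r.isLt
    have := r'.isLt
    have h5 : i = i' := by omega
    have h6 : r = r' := by
      apply Fin.ext
      omega
    rw [h5, h6]
  · rintro _ ⟨i, r, rfl, hpi, hiq⟩
    by_cases hip : i = p ∧ p ≠ 0
    · obtain ⟨rfl, hp0⟩ := hip
      refine bound3 (P1 := (fun r' => Vtx.b a k i r') '' (fwd r : Set (Fin 12)))
        (P2 := (fun r' => Vtx.b a k (i + 1) r') '' (upN r : Set (Fin 12)))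
        (P3 := (fun r' => Vtx.b a k (i - 1) r') ''
          ((Finset.univ.filter (fun r' => r ∈ upN r') : Finset (Fin 12)) : Set (Fin 12))) ?_
        (encard_image_finset _ _) (encard_image_finset _ _) (encard_image_finset _ _)
        ((count1 r).trans (by omega))
      rintro w ⟨h1, h2⟩
      rcases adj_b h1 with ⟨r', hr, rfl⟩ | ⟨r', hr, rfl⟩ | ⟨j, hj, rfl⟩ | ⟨r', hr, rfl⟩ |
        ⟨i', r', hi, hr, rfl⟩ | ⟨a', k', i', r', j, rfl, hj, h⟩
      · exact Or.inl (Or.inl ⟨r', hr, rfl⟩)
      · exact Or.inl (Or.inr ⟨r', hr, rfl⟩)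
      · exfalso
        rcases h2 with h2 | ⟨⟨i', r', h2, _⟩, _⟩
        · exact hA3 hp0 _ h2
        · have h3 := (D a).T_lt k i (r, j)
          rw [h2] at h3
          exact lt_irrefl _ h3
      · exfalso
        rcases h2 with h2 | ⟨_, h2⟩
        · exact absurd (hA1 _ _ h2) (lt_irrefl _)
        · rw [hβ, hβ] at h2
          have h3 := fwd_lt r' r hr
          have h4 := r.isLt
          rw [Fin.lt_def] at h3
          omega
      · refine Or.inr ⟨r', by simpa using hr, ?_⟩
        have : i - 1 = i' := by omega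
        rw [this]
      · exfalso
        have h3 := (D a').T_lt k' i' (r', j)
        rw [← h] at h3
        rcases h2 with h2 | ⟨⟨i'', r'', h2, _⟩, _⟩
        · rcases hA2 _ h2 with ⟨x, n, h5⟩ | h5
          · cases h5
          · exact absurd h5 (not_le.2 h3)
        · injection h2 with h4
          rw [h4] at h3
          exact lt_irrefl _ h3
    · refine bound3 (P1 := (fun r' => Vtx.b a k i r') '' (fwd r : Set (Fin 12)))
        (P2 := (fun r' => Vtx.b a k (i + 1) r') '' (upN r : Set (Fin 12)))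
        (P3 := {w | ∃ j : Fin (e + 2), j.val < hh e r ∧ w = (D a).T k i (r, j)}) ?_
        (encard_image_finset _ _) (encard_image_finset _ _) (encard_T k i r)
        (count2 e r)
      rintro w ⟨h1, h2⟩
      rcases adj_b h1 with ⟨r', hr, rfl⟩ | ⟨r', hr, rfl⟩ | ⟨j, hj, rfl⟩ | ⟨r', hr, rfl⟩ |
        ⟨i', r', hi, hr, rfl⟩ | ⟨a', k', i', r', j, rfl, hj, h⟩
      · exact Or.inl (Or.inl ⟨r', hr, rfl⟩)
      · exact Or.inl (Or.inr ⟨r', hr, rfl⟩)
      · exact Or.inr ⟨j, hj, rfl⟩
      · exfalso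
        rcases h2 with h2 | ⟨_, h2⟩
        · have := hA1 _ _ h2
          omega
        · rw [hβ, hβ] at h2
          have h3 := fwd_lt r' r hr
          have h4 := r.isLt
          rw [Fin.lt_def] at h3
          omega
      · exfalso
        rcases h2 with h2 | ⟨_, h2⟩
        · have := hA1 _ _ h2
          omega
        · rw [hβ, hβ] at h2
          have h4 := r.isLt
          have h5 := r'.isLt
          omega
      · exfalso
        have h3 := (D a').T_lt k' i' (r', j)
        rw [← h] at h3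
        rcases h2 with h2 | ⟨⟨i'', r'', h2, _⟩, _⟩
        · rcases hA2 _ h2 with ⟨x, n, h5⟩ | h5
          · cases h5
          · exact absurd h5 (not_le.2 h3)
        · injection h2 with h4
          rw [h4] at h3
          exact lt_irrefl _ h3

end Pool.Agent.N311.Ind
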