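import Pool.Agent.N311.Ind.Ray

/-! Initial segments are free over smaller ones. -/

set_option autoImplicit false

open Cardinal Order Set

universe u

namespace Pool.Agent.N311.Ind

open Pool.Agent.Results.MP_279ba3_co.ColoringNumberStep

variable {Ω : Type u} [LinearOrder Ω] {e : ℕ} {D : ∀ a : {a : Ω // IsLim a}, Data e a}

/-- projections -/
def kk : Vtx Ω → ℕ
  | .y _ _ => 0
  | .b _ k _ _ => k

def ii : Vtx Ω → ℕ
  | .y _ _ => 0
  | .b _ _ i _ => i

/-- the finite set of reserved vertices at stage `s` -/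
def YY (D : ∀ a : {a : Ω // IsLim a}, Data e a) (a : {a : Ω // IsLim a}) (s : ℕ) :
    Set (Vtx Ω) := {w | ∃ k c, k ≤ s ∧ w = (D a).T k (2 * s) c}

theorem YY_finite (a : {a : Ω // IsLim a}) (s : ℕ) : (YY D a s).Finite := by
  have h : YY D a s ⊆ ⋃ k ∈ Finset.range (s + 1), Set.range ((D a).T k (2 * s)) := by
    rintro w ⟨k, c, hk, rfl⟩
    simp only [Finset.mem_range, Set.mem_iUnion]
    exact ⟨k, by omega, c, rfl⟩
  refine Set.Finite.subset ?_ h
  exact Set.Finite.biUnion (Finset.finite_toSet _) fun k _ => Set.finite_range _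

theorem YY_lev {a : {a : Ω // IsLim a}} {s : ℕ} {w : Vtx Ω} (h : w ∈ YY D a s) :
    ∃ n, w = .y ((D a).δ (s + 1)) n := by
  obtain ⟨k, c, _, rfl⟩ := h
  exact (D a).T_even k s c

theorem seg_limit (a : {a : Ω // IsLim a}) (g : Ω) (hg : g < a.1) (Y : Set (Vtx Ω))
    (hY : Y.Finite) (hYy : ∀ w ∈ Y, ∃ x n, w = .y x n)
    (ih : ∀ b < a.1, ∀ g ≤ b, ∀ Y : Set (Vtx Ω), Y.Finite → (∀ w ∈ Y, ∃ x n, w = .y x n) →
      Free (Gr D) ({w | lev w ≤ g} ∪ Y) {w | lev w ≤ b ∧ g < lev w ∧ w ∉ Y} (e + 3)) :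
    Free (Gr D) ({w | lev w ≤ g} ∪ Y) {w | g < lev w ∧ w ∉ Y ∧
      (lev w < a.1 ∨ ∃ k i r, w = .b a k i r)} (e + 3) := by
  classical
  let δ := (D a).δ
  have hδ : StrictMono δ := (D a).δ_mono
  have hδlt : ∀ s, δ s < a.1 := (D a).δ_lt
  -- the starting stage
  obtain ⟨n0, hn0, hn0Y⟩ : ∃ n0, g ≤ δ n0 ∧ ∀ w ∈ Y, lev w < a.1 → lev w ≤ δ n0 := by
    obtain ⟨s0, hs0⟩ := (D a).δ_cof g hg
    have h1 : ∀ w : Vtx Ω, ∃ s, lev w < a.1 → lev w ≤ δ s := by
      intro w
      by_cases h : lev w < a.1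
      · obtain ⟨s, hs⟩ := (D a).δ_cof _ h
        exact ⟨s, fun _ => hs⟩
      · exact ⟨0, fun h' => absurd h' h⟩
    choose f hf using h1
    let F := hY.toFinset
    refine ⟨s0 + F.sup f, hs0.trans (hδ.monotone (Nat.le_add_right _ _)), fun w hw hlt => ?_⟩
    refine (hf w hlt).trans (hδ.monotone ?_)
    exact (Finset.le_sup (f := f) (hY.mem_toFinset.2 hw)).trans (Nat.le_add_left _ _)
  -- the stage of a level
  let m : Ω → ℕ := fun x => if h : ∃ s, x ≤ δ s then Nat.find h else 0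
  have hm : ∀ x < a.1, ∀ s, m x ≤ s ↔ x ≤ δ s := by
    intro x hx s
    have h : ∃ s, x ≤ δ s := (D a).δ_cof x hx
    have h1 : m x = Nat.find h := dif_pos h
    constructor
    · intro h2
      exact (Nat.find_spec h).trans (hδ.monotone (h1 ▸ h2))
    · intro h2
      rw [h1]
      exact Nat.find_min' h h2
  let β : Vtx Ω → ℕ := fun w => if lev w < a.1 then
      (if m (lev w) ≤ n0 then 0 else if w ∈ YY D a (m (lev w) - 1) then
        3 * (m (lev w) - 1 - n0) + 2 else 3 * (m (lev w) - 1 - n0) + 3)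
    else 3 * (max n0 (max (kk w) (ii w / 2)) - n0) + 1
  have hβb : ∀ k i r, β (.b a k i r) = 3 * (max n0 (max k (i / 2)) - n0) + 1 := by
    intro k i r
    have : ¬ (lev (Vtx.b a k i r) < a.1) := lt_irrefl _
    simp only [β, if_neg this]
    rfl
  have hβ1 : ∀ w, lev w < a.1 → m (lev w) ≤ n0 → β w = 0 := by
    intro w h1 h2
    simp only [β, if_pos h1, if_pos h2]
  have hβ2 : ∀ w, lev w < a.1 → ¬ m (lev w) ≤ n0 → w ∈ YY D a (m (lev w) - 1) →
      β w = 3 * (m (lev w) - 1 - n0) + 2 := by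
    intro w h1 h2 h3
    simp only [β, if_pos h1, if_neg h2, if_pos h3]
  have hβ3 : ∀ w, lev w < a.1 → ¬ m (lev w) ≤ n0 → w ∉ YY D a (m (lev w) - 1) →
      β w = 3 * (m (lev w) - 1 - n0) + 3 := by
    intro w h1 h2 h3
    simp only [β, if_pos h1, if_neg h2, if_neg h3]
  set C1 : Set (Vtx Ω) := {w | g < lev w ∧ w ∉ Y ∧ (lev w < a.1 ∨ ∃ k i r, w = .b a k i r)}
    with hC1
  -- description of the elements of `C1`
  have hdesc : ∀ w ∈ C1, (lev w < a.1 ∧ m (lev w) ≤ n0 ∧ β w = 0) ∨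
      (lev w < a.1 ∧ ∃ j, m (lev w) = n0 + j + 1 ∧ w ∈ YY D a (n0 + j) ∧ β w = 3 * j + 2) ∨
      (lev w < a.1 ∧ ∃ j, m (lev w) = n0 + j + 1 ∧ w ∉ YY D a (n0 + j) ∧ β w = 3 * j + 3) ∨
      (∃ k i r, w = .b a k i r ∧ ∃ j, max n0 (max k (i / 2)) = n0 + j ∧ β w = 3 * j + 1) := by
    rintro w ⟨_, _, h | ⟨k, i, r, rfl⟩⟩
    · by_cases h1 : m (lev w) ≤ n0
      · exact Or.inl ⟨h, h1, hβ1 w h h1⟩
      · have h4 : m (lev w) = n0 + (m (lev w) - 1 - n0) + 1 := by omega
        have h5 : m (lev w) - 1 = n0 + (m (lev w) - 1 - n0) := by omega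
        by_cases h2 : w ∈ YY D a (m (lev w) - 1)
        · refine Or.inr (Or.inl ⟨h, m (lev w) - 1 - n0, h4, ?_, hβ2 w h h1 h2⟩)
          rw [← h5]
          exact h2
        · refine Or.inr (Or.inr (Or.inl ⟨h, m (lev w) - 1 - n0, h4, ?_, hβ3 w h h1 h2⟩))
          rw [← h5]
          exact h2
    · refine Or.inr (Or.inr (Or.inr ⟨k, i, r, rfl, max n0 (max k (i / 2)) - n0, ?_, hβb k i r⟩))
      omega
  apply blocksN β
  intro bi
  have hbi : bi = 0 ∨ ∃ j, bi = 3 * j + 1 ∨ bi = 3 * j + 2 ∨ bi = 3 * j + 3 := by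
    rcases Nat.eq_zero_or_pos bi with h | h
    · exact Or.inl h
    · refine Or.inr ⟨(bi - 1) / 3, ?_⟩
      omega
  rcases hbi with rfl | ⟨j, hj⟩
  · -- block 0
    refine weaken (ih (δ n0) (hδlt n0) g hn0 Y hY hYy) ?_ ?_
    · rintro w ⟨hw, hw0⟩
      rcases hdesc w hw with ⟨h1, h2, _⟩ | ⟨_, j, _, _, h⟩ | ⟨_, j, _, _, h⟩ |
        ⟨k, i, r, rfl, j, _, h⟩
      · exact ⟨(hm _ h1 _).1 h2, hw.1, hw.2.1⟩
      · omega
      · omega
      · omega
    · rintro v _ w (hw | hw) _
      · exact hw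
      · exact absurd hw.2 (Nat.not_lt_zero _)
  · -- the set of earlier vertices
    set s := n0 + j with hs
    have hgs : g ≤ δ s := hn0.trans (hδ.monotone (Nat.le_add_right _ _))
    have hYs : ∀ w ∈ Y, lev w < a.1 → lev w ≤ δ s := fun w hw h =>
      (hn0Y w hw h).trans (hδ.monotone (Nat.le_add_right _ _))
    -- T-values in the relevant range
    have hT : ∀ k i c, i / 2 ≤ s → δ s < lev ((D a).T k i c) → i = 2 * s := by
      intro k i c hi hlt
      rcases Nat.even_or_odd' i with ⟨s', rfl | rfl⟩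
      · obtain ⟨n, hn⟩ := (D a).T_even k s' c
        rw [hn] at hlt
        have h1 : s < s' + 1 := hδ.lt_iff_lt.1 hlt
        omega
      · have h1 := (D a).T_odd k s' c
        have h2 : δ s' ≤ δ s := hδ.monotone (by omega)
        exact absurd (hlt.trans_le (h1.trans h2)) (lt_irrefl _)
    rcases hj with rfl | rfl | rfl
    · -- block 3j+1
      have hC' : ∀ w ∈ {w | w ∈ C1 ∧ β w = 3 * j + 1}, ∃ k i r, w = .b a k i r ∧
          max n0 (max k (i / 2)) = s := by
        rintro w ⟨hw, hw0⟩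
        rcases hdesc w hw with ⟨_, _, h⟩ | ⟨_, j', _, _, h⟩ | ⟨_, j', _, _, h⟩ |
          ⟨k, i, r, rfl, j', h', h⟩
        · omega
        · omega
        · omega
        · exact ⟨k, i, r, rfl, by omega⟩
      have hA' : ∀ w ∈ {w | w ∈ C1 ∧ β w < 3 * j + 1}, (lev w < a.1 ∧ lev w ≤ δ s) ∨
          ∃ k i r, w = .b a k i r ∧ max n0 (max k (i / 2)) < s := by
        rintro w ⟨hw, hw0⟩
        rcases hdesc w hw with ⟨h1, h2, h⟩ | ⟨h1, j', h2, _, h⟩ | ⟨h1, j', h2, _, h⟩ |
          ⟨k, i, r, rfl, j', h', h⟩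
        · exact Or.inl ⟨h1, (hm _ h1 _).1 (by omega)⟩
        · exact Or.inl ⟨h1, (hm _ h1 _).1 (by omega)⟩
        · exact Or.inl ⟨h1, (hm _ h1 _).1 (by omega)⟩
        · exact Or.inr ⟨k, i, r, rfl, by omega⟩
      apply blocksN kk
      intro k
      by_cases hk : k ≤ s
      · let p := if j = 0 ∨ k = s then 0 else 2 * s
        have hp0 : p ≠ 0 → p = 2 * s ∧ j ≠ 0 ∧ k ≠ s := by
          intro h
          simp only [p] at h ⊢
          split_ifs at h ⊢ with h1
          · exact absurd rfl h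
          · push Not at h1
            exact ⟨rfl, h1⟩
        refine weaken (ray (D := D) (a := a) (k := k) (p := p) (q := 2 * s + 2) ?_ ?_ ?_)
          ?_ (fun _ _ _ h _ => h)
        · rintro i r (((h | h) | h) | ⟨h1, h2⟩)
          · exact absurd (hg.trans_le h) (lt_irrefl _)
          · obtain ⟨x, n, h⟩ := hYy _ h
            cases h
          · rcases hA' _ h with ⟨h, _⟩ | ⟨k', i', r', h1, h2⟩
            · exact absurd h (lt_irrefl _)
            · injection h1 with _ h3 h4 h5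
              subst h3 h4 h5
              have h6 : ¬ (j = 0 ∨ k = s) := by omega
              simp only [p, if_neg h6]
              omega
          · exact absurd h2 (lt_irrefl _)
        · rintro w (((h | h) | h) | ⟨h1, h2⟩)
          · exact Or.inr (le_trans h hg.le)
          · exact Or.inl (hYy _ h)
          · rcases hA' _ h with ⟨h, _⟩ | ⟨k', i', r', rfl, h2⟩
            · exact Or.inr h.le
            · exact Or.inr le_rfl
          · obtain ⟨k', i', r', rfl, _⟩ := hC' _ h1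
            exact Or.inr le_rfl
        · intro hp c
          obtain ⟨hp, hj0, hks⟩ := hp0 hp
          rw [hp]
          obtain ⟨n, hn⟩ := (D a).T_even k s c
          rw [hn]
          have h1 : δ s < δ (s + 1) := hδ (Nat.lt_succ_self _)
          rintro (((h | h) | h) | ⟨h, _⟩)
          · exact absurd (h1.trans_le (le_trans h hgs)) (lt_irrefl _)
          · exact absurd (h1.trans_le (hYs _ h (hδlt _))) (lt_irrefl _)
          · rcases hA' _ h with ⟨_, h⟩ | ⟨k', i', r', h, _⟩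
            · exact absurd (h1.trans_le h) (lt_irrefl _)
            · cases h
          · obtain ⟨k', i', r', h, _⟩ := hC' _ h
            cases h
        · rintro w ⟨hw, hwk⟩
          obtain ⟨k', i, r, rfl, h1⟩ := hC' w hw
          have hwk' : k' = k := hwk
          subst hwk'
          refine ⟨i, r, rfl, ?_, by omega⟩
          by_cases h2 : j = 0 ∨ k' = s
          · simp only [p, if_pos h2]
            exact Nat.zero_le _
          · simp only [p, if_neg h2]
            omega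
      · apply free_of_isolated
        rintro v ⟨hv, hvk⟩
        obtain ⟨k', i', r', rfl, h2⟩ := hC' _ hv
        have hvk' : k' = k := hvk
        omega
    · -- block 3j+2
      have hC' : ∀ w ∈ {w | w ∈ C1 ∧ β w = 3 * j + 2}, w ∈ YY D a s := by
        rintro w ⟨hw, hw0⟩
        rcases hdesc w hw with ⟨_, _, h⟩ | ⟨_, j', _, h2, h⟩ | ⟨_, j', _, _, h⟩ |
          ⟨k, i, r, rfl, j', h', h⟩
        · omega
        · have : j' = j := by omega
          rw [hs, ← this]
          exact h2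
        · omega
        · omega
      have hA' : ∀ w ∈ {w | w ∈ C1 ∧ β w < 3 * j + 2}, (lev w < a.1 ∧ lev w ≤ δ s) ∨
          ∃ k i r, w = .b a k i r ∧ max n0 (max k (i / 2)) ≤ s := by
        rintro w ⟨hw, hw0⟩
        rcases hdesc w hw with ⟨h1, h2, h⟩ | ⟨h1, j', h2, _, h⟩ | ⟨h1, j', h2, _, h⟩ |
          ⟨k, i, r, rfl, j', h', h⟩
        · exact Or.inl ⟨h1, (hm _ h1 _).1 (by omega)⟩
        · exact Or.inl ⟨h1, (hm _ h1 _).1 (by omega)⟩
        · exact Or.inl ⟨h1, (hm _ h1 _).1 (by omega)⟩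
        · exact Or.inr ⟨k, i, r, rfl, by omega⟩
      apply free_of_card
      intro v hv
      obtain ⟨k, c, hk, hv1⟩ := hC' v hv
      obtain ⟨n, hn⟩ := (D a).T_even k s c
      have hvy : v = .y (δ (s + 1)) n := hv1.trans hn
      have hss : δ s < δ (s + 1) := hδ (Nat.lt_succ_self _)
      have hsub : {w | (Gr D).Adj v w ∧ (w ∈ {w | lev w ≤ g} ∪ Y ∪ {w | w ∈ C1 ∧ β w < 3 * j + 2} ∨
          w ∈ {w | w ∈ C1 ∧ β w = 3 * j + 2})} ⊆ {.b a k (2 * s) c.1} := by
        rintro w ⟨hadj, hw⟩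
        rw [hvy] at hadj
        have hlev := adj_y_lt hadj
        obtain ⟨a', k', i', r', jj, hw1, hjj, hw2⟩ := adj_y hadj
        rcases hw with ((hw | hw) | hw) | hw
        · exact absurd ((hss.trans hlev).trans_le (le_trans hw hgs)) (lt_irrefl _)
        · obtain ⟨x, n', h⟩ := hYy _ hw
          rw [hw1] at h
          cases h
        · rcases hA' _ hw with ⟨_, h⟩ | ⟨k'', i'', r'', h1, h2⟩
          · exact absurd ((hss.trans hlev).trans_le h) (lt_irrefl _)
          · rw [hw1] at h1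
            injection h1 with h3 h4 h5 h6
            subst h3 h4 h5 h6
            have h7 : δ s < lev ((D a').T k' i' (r', jj)) := by
              rw [← hw2]
              exact hss
            have h8 := hT k' i' (r', jj) (by omega) h7
            subst h8
            have h9 := (D a').T_disj s k' k (r', jj) c (by rw [← hw2, ← hvy, hv1])
            rw [hw1, h9.1, ← h9.2]
            rfl
        · obtain ⟨n', h⟩ := YY_lev (hC' _ hw)
          rw [hw1] at h
          cases h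
      refine (Set.encard_le_encard hsub).trans ?_
      rw [Set.encard_singleton]
      exact_mod_cast (by omega : 1 ≤ e + 3)
    · -- block 3j+3
      have hC' : ∀ w ∈ {w | w ∈ C1 ∧ β w = 3 * j + 3}, lev w ≤ δ (s + 1) ∧ δ s < lev w ∧
          w ∉ YY D a s := by
        rintro w ⟨hw, hw0⟩
        rcases hdesc w hw with ⟨_, _, h⟩ | ⟨_, j', _, h2, h⟩ | ⟨h1, j', h2, h3, h⟩ |
          ⟨k, i, r, rfl, j', h', h⟩
        · omega
        · omega
        · have : j' = j := by omega
          subst this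
          refine ⟨(hm _ h1 _).1 (by omega), ?_, h3⟩
          by_contra hcon
          have := (hm _ h1 s).2 (not_lt.1 hcon)
          omega
        · omega
      have hA' : ∀ w ∈ {w | w ∈ C1 ∧ β w < 3 * j + 3}, (lev w < a.1 ∧ lev w ≤ δ s) ∨
          w ∈ YY D a s ∨ ∃ k i r, w = .b a k i r ∧ max n0 (max k (i / 2)) ≤ s := by
        rintro w ⟨hw, hw0⟩
        rcases hdesc w hw with ⟨h1, h2, h⟩ | ⟨h1, j', h2, h3, h⟩ | ⟨h1, j', h2, _, h⟩ |
          ⟨k, i, r, rfl, j', h', h⟩
        · exact Or.inl ⟨h1, (hm _ h1 _).1 (by omega)⟩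
        · by_cases hjj : j' = j
          · subst hjj
            exact Or.inr (Or.inl h3)
          · exact Or.inl ⟨h1, (hm _ h1 _).1 (by omega)⟩
        · exact Or.inl ⟨h1, (hm _ h1 _).1 (by omega)⟩
        · exact Or.inr (Or.inr ⟨k, i, r, rfl, by omega⟩)
      refine weaken (ih (δ (s + 1)) (hδlt _) (δ s) (hδ (Nat.lt_succ_self _)).le (YY D a s)
        (YY_finite a s) (fun w hw => ⟨_, YY_lev hw⟩)) (fun w hw => hC' w hw) ?_
      intro v hv w hw hadj
      obtain ⟨hv1, hv2, hv3⟩ := hC' v hv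
      rcases hw with (hw | hw) | hw
      · exact Or.inl (le_trans hw hgs)
      · left
        obtain ⟨x, n, rfl⟩ := hYy _ hw
        have h1 := adj_y_lt hadj.symm
        exact hYs _ hw ((h1.trans_le hv1).trans (hδlt _))
      · rcases hA' w hw with ⟨_, h⟩ | h | ⟨k, i, r, rfl, h⟩
        · exact Or.inl h
        · exact Or.inr h
        · exfalso
          obtain ⟨a', k', i', r', jj, h1, hjj, h2⟩ := adj_lt hadj (hv1.trans_lt (hδlt _))
          injection h1 with h3 h4 h5 h6
          subst h3 h4 h5 h6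
          rw [h2] at hv2 hv3
          have h8 := hT k i (r, jj) (by omega) hv2
          subst h8
          exact hv3 ⟨k, _, by omega, rfl⟩

theorem seg [WellFoundedLT Ω] : ∀ b : Ω, ∀ g ≤ b, ∀ Y : Set (Vtx Ω), Y.Finite →
    (∀ w ∈ Y, ∃ x n, w = .y x n) →
    Free (Gr D) ({w | lev w ≤ g} ∪ Y) {w | lev w ≤ b ∧ g < lev w ∧ w ∉ Y} (e + 3) := by
  intro b
  induction b using WellFoundedLT.induction with
  | _ b ih =>
  intro g hgb Y hY hYy
  rcases hgb.eq_or_lt with rfl | hgb
  · apply free_of_isolated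
    rintro v ⟨h1, h2, _⟩
    exact absurd (h2.trans_le h1) (lt_irrefl _)
  by_cases hb : IsLim b
  · have h1 := seg_limit (D := D) ⟨b, hb⟩ g hgb Y hY hYy ih
    have h2 : Free (Gr D) (({w | lev w ≤ g} ∪ Y) ∪ {w | g < lev w ∧ w ∉ Y ∧
        (lev w < b ∨ ∃ k i r, w = .b ⟨b, hb⟩ k i r)}) {w | ∃ n, w = .y b n} (e + 3) := by
      apply free_of_isolated
      rintro _ ⟨n, rfl⟩ w hadj
      have h3 := adj_y_lt hadj
      obtain ⟨a', k', i', r', jj, rfl, _, _⟩ := adj_y hadj
      refine ⟨?_, ?_⟩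
      · rintro ((h | h) | ⟨_, _, h | ⟨k, i, r, h⟩⟩)
        · exact absurd ((hgb.trans h3).trans_le h) (lt_irrefl _)
        · obtain ⟨x, n, h⟩ := hYy _ h
          cases h
        · exact absurd (h.trans h3) (lt_irrefl _)
        · rw [h] at h3
          exact absurd h3 (lt_irrefl _)
      · rintro ⟨n, h⟩
        cases h
    refine weaken (two h1 h2) ?_ (fun _ _ _ h _ => h)
    rintro w ⟨h3, h4, h5⟩
    rcases h3.eq_or_lt with h3 | h3
    · rcases w with ⟨x, n⟩ | ⟨x, k, i, r⟩
      · right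
        exact ⟨n, by rw [← h3]; rfl⟩
      · left
        refine ⟨h4, h5, Or.inr ⟨k, i, r, ?_⟩⟩
        have : x = ⟨b, hb⟩ := Subtype.ext h3
        rw [this]
    · exact Or.inl ⟨h4, h5, Or.inl h3⟩
  · obtain ⟨b', hb', hb''⟩ : ∃ b' < b, ∀ c, b' < c → b ≤ c := by
      unfold IsLim at hb
      push Not at hb
      exact hb ⟨g, hgb⟩
    have hgb' : g ≤ b' := by
      by_contra hcon
      exact absurd (hb'' g (not_le.1 hcon)) (not_le.2 hgb)
    have h1 := ih b' hb' g hgb' Y hY hYy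
    have h2 : Free (Gr D) (({w | lev w ≤ g} ∪ Y) ∪ {w | lev w ≤ b' ∧ g < lev w ∧ w ∉ Y})
        {w | lev w = b} (e + 3) := by
      apply free_of_isolated
      rintro v hv w hadj
      rcases v with ⟨x, n⟩ | ⟨x, k, i, r⟩
      · have hv' : x = b := hv
        subst hv'
        have h3 := adj_y_lt hadj
        obtain ⟨a', k', i', r', jj, rfl, _, _⟩ := adj_y hadj
        refine ⟨?_, ?_⟩
        · rintro ((h | h) | ⟨h, _⟩)
          · exact absurd ((hgb.trans h3).trans_le h) (lt_irrefl _)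
          · obtain ⟨x, n, h⟩ := hYy _ h
            cases h
          · exact absurd ((hb'.trans h3).trans_le h) (lt_irrefl _)
        · intro h
          rw [Set.mem_ofPred_eq] at h
          rw [h] at h3
          exact absurd h3 (lt_irrefl _)
      · have hv' : x.1 = b := hv
        exact absurd (hv' ▸ x.2) hb
    refine weaken (two h1 h2) ?_ (fun _ _ _ h _ => h)
    rintro w ⟨h3, h4, h5⟩
    by_cases h6 : lev w ≤ b'
    · exact Or.inl ⟨h6, h4, h5⟩
    · exact Or.inr (le_antisymm h3 (hb'' _ (not_le.1 h6)))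

end Pool.Agent.N311.Ind
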